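import Pool.Agent.L7h34.BO.Stm
import Pool.Agent.L7h10.BP.RED2

set_option autoImplicit false

/-! # Part REDO of project BO (odd degrees; the proof of helper10's part RED2) -/

namespace Pool.Agent.L7h89.BO

open Pool.Agent.L7h58.BP Pool.Agent.L7h10.BP Polynomial Finset

/-- integral coefficients, odd degree -/
theorem coefo (n : ℕ) (hn : Odd n) (hn3 : 3 ≤ n) (k : ℕ) (hk : k ≤ n) :
    ∃ z : ℤ, (z : ℚ) = (DD (n + 1) : ℚ) * (_root_.bernoulli k * n.choose k) ∧
      ∀ p ∈ prs (n + 1), 2 < p →
        (z : ZMod p) = (DE (n + 1) p : ZMod p) * ((n.choose k : ZMod p) * pw p k) := by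
  have hD0 : ∀ p ∈ prs (n + 1), ((DD (n + 1) : ℕ) : ZMod p) = 0 := by
    intro p hp
    rw [ZMod.natCast_eq_zero_iff, DD_eq hp]
    exact Dvd.intro _ rfl
  rcases Nat.even_or_odd k with hke | hko
  · obtain ⟨j, hj⟩ := hke
    have hj2 : k = 2 * j := by omega
    rcases Nat.eq_zero_or_pos j with h0 | hjp
    · subst h0
      obtain rfl : k = 0 := by omega
      refine ⟨DD (n + 1), by simp, ?_⟩
      intro p hp _
      rw [pw_zero, mul_zero, mul_zero, Int.cast_natCast, hD0 p hp]
    · subst hj2
      obtain ⟨z, hz⟩ := Bernoulli.vonStaudt_clausen j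
      set S := (range (2 * j + 2)).filter (fun p => p.Prime ∧ (p - 1) ∣ 2 * j) with hS
      have hSm : ∀ q ∈ S, q ∈ prs (n + 1) := by
        intro q hq
        rw [hS, Finset.mem_filter, Finset.mem_range] at hq
        exact mem_prs.2 ⟨by omega, hq.2.1⟩
      refine ⟨((DD (n + 1) : ℤ) * z - ∑ q ∈ S, (DE (n + 1) q : ℤ)) * (n.choose (2 * j) : ℤ), ?_, ?_⟩
      · have h1 : (_root_.bernoulli (2 * j) : ℚ) = z - ∑ q ∈ S, (1 : ℚ) / q := by
          rw [hz]
          ring
        have h2 : (DD (n + 1) : ℚ) * ∑ q ∈ S, (1 : ℚ) / q = ∑ q ∈ S, (DE (n + 1) q : ℚ) := by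
          rw [Finset.mul_sum]
          refine Finset.sum_congr rfl fun q hq => ?_
          have hq0 : (q : ℚ) ≠ 0 := Nat.cast_ne_zero.2 (mem_prs.1 (hSm q hq)).2.ne_zero
          rw [DD_eq (hSm q hq)]
          push_cast
          field_simp
        push_cast
        rw [h1, ← h2]
        ring
      · intro p hp _
        have : Fact p.Prime := ⟨(mem_prs.1 hp).2⟩
        have hz0 : ((DD (n + 1) : ℕ) : ZMod p) = 0 := hD0 p hp
        have hsum : ∑ q ∈ S, ((DE (n + 1) q : ℕ) : ZMod p) =
            if p ∈ S then ((DE (n + 1) p : ℕ) : ZMod p) else 0 := by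
          rw [← Finset.sum_ite_eq' S p (fun q => ((DE (n + 1) q : ℕ) : ZMod p))]
          refine Finset.sum_congr rfl fun q hq => ?_
          split_ifs with h
          · rfl
          · rw [ZMod.natCast_eq_zero_iff]
            exact dvd_DE hp (fun h' => h h'.symm)
        have hiff : p ∈ S ↔ (p - 1) ∣ 2 * j := by
          rw [hS, Finset.mem_filter, Finset.mem_range]
          constructor
          · exact fun h => h.2.2
          · intro h
            have := Nat.le_of_dvd (by omega) h
            exact ⟨by omega, (mem_prs.1 hp).2, h⟩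
        push_cast
        rw [hz0, hsum, pw_eq p _ (by omega)]
        by_cases h : (p - 1) ∣ 2 * j
        · rw [if_pos (hiff.2 h), if_pos h]
          ring
        · rw [if_neg (fun h' => h (hiff.1 h')), if_neg h]
          ring
  · have hnd : ∀ p ∈ prs (n + 1), 2 < p → ¬ (p - 1) ∣ k := by
      intro p hp hp2 h
      have h3 := (mem_prs.1 hp).2.even_sub_one (by omega)
      have h4 : Even k := by
        obtain ⟨c, hc⟩ := h
        rw [hc]
        exact h3.mul_right c
      exact (Nat.not_even_iff_odd.2 hko) h4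
    have hk0 : k ≠ 0 := by
      rintro rfl
      exact absurd hko (by decide)
    rcases Nat.lt_or_ge k 2 with h1 | h2
    · obtain rfl : k = 1 := by omega
      have h2m : 2 ∈ prs (n + 1) := mem_prs.2 ⟨by omega, Nat.prime_two⟩
      refine ⟨-((DE (n + 1) 2 : ℤ) * n), ?_, ?_⟩
      · rw [_root_.bernoulli_one, Nat.choose_one_right, DD_eq h2m]
        push_cast
        ring
      · intro p hp hp2
        have : Fact p.Prime := ⟨(mem_prs.1 hp).2⟩
        have hz0 : ((DE (n + 1) 2 : ℕ) : ZMod p) = 0 := by
          rw [ZMod.natCast_eq_zero_iff]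
          exact dvd_DE hp (by omega)
        push_cast
        rw [hz0, pw_eq p 1 one_ne_zero, if_neg (hnd p hp hp2)]
        ring
    · refine ⟨0, ?_, ?_⟩
      · rw [bernoulli_eq_zero_of_odd hko (by omega)]
        simp
      · intro p hp hp2
        have : Fact p.Prime := ⟨(mem_prs.1 hp).2⟩
        rw [pw_eq p k hk0, Int.cast_zero, if_neg (hnd p hp hp2)]
        ring

theorem s_REDO : Pool.Agent.L7h34.BO.S_REDO := by
  intro n hn hn3
  choose! z hz1 hz2 using coefo n hn hn3
  refine ⟨∑ k ∈ range (n + 1), monomial (n - k) (z k), ?_, ?_⟩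
  · rw [← DD_primorial, Polynomial.map_sum, Polynomial.bernoulli, Finset.mul_sum]
    refine Finset.sum_congr rfl fun k hk => ?_
    rw [map_monomial, C_mul_monomial]
    congr 1
    exact hz1 k (by rw [Finset.mem_range] at hk; omega)
  · intro p hp hp2 hpn
    have hpm : p ∈ prs (n + 1) := mem_prs.2 ⟨hpn, hp⟩
    refine ⟨(DE (n + 1) p : ZMod p), ?_, ?_⟩
    · intro h
      rw [ZMod.natCast_eq_zero_iff] at h
      exact not_dvd_DE hp h
    · ext j
      rw [coeff_C_mul, coeff_Sp, coeff_map, finsetSum_coeff]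
      simp only [coeff_monomial]
      rcases Nat.lt_or_ge n j with hj | hj
      · rw [Nat.choose_eq_zero_of_lt hj, Nat.cast_zero, zero_mul, mul_zero,
          Finset.sum_eq_zero, map_zero]
        intro k _
        rw [if_neg (by omega)]
      · rw [Finset.sum_eq_single (n - j)]
        · rw [if_pos (by omega), eq_intCast, hz2 (n - j) (Nat.sub_le _ _) p hpm hp2,
            Nat.choose_symm hj]
        · intro k hk hne
          rw [Finset.mem_range] at hk
          rw [if_neg (by omega)]
        · intro h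
          exact absurd (Finset.mem_range.2 (by omega)) h

end Pool.Agent.L7h89.BO
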